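import Pool.Agent.H27.G.R_seed8.Y957.VK.Stm

set_option autoImplicit false

namespace Pool.Agent.Y957.VK

theorem rec_of (h1 : S_HOL) (h2 : S_CNT) : S_REC := by
  intro s r p X hr hp hrp hX
  rcases Nat.eq_zero_or_pos s with rfl | hs
  · -- `s = 0`
    have h := h2 0 r p X 0 hr hp hrp hX hp.pos
    have he : BB 0 r p X = BA 0 r p X 0 := by
      unfold BB BA
      congr 1
      ext z
      simp only [Finset.mem_filter, and_congr_right_iff]
      intro _
      constructor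
      · rintro ⟨a, b, c⟩
        exact ⟨⟨a, b, fun i => i.elim0, fun i => i.elim0⟩, c⟩
      · rintro ⟨⟨a, b, _, _⟩, c⟩
        exact ⟨a, b, c⟩
    rw [he]
    simpa using h
  · refine (h1 s r p X hs hr hp).trans ?_
    have h3 : ∑ a ∈ Finset.range p, BA s r p X a ≤
        p * (r.factorial * p ^ (r * (r - 1) / 2) * X ^ r * J s r (X / p + 1)) := by
      calc _ ≤ ∑ a ∈ Finset.range p, (r.factorial * p ^ (r * (r - 1) / 2) * X ^ r * J s r (X / p + 1)) :=
            Finset.sum_le_sum fun a ha => h2 s r p X a hr hp hrp hX (Finset.mem_range.1 ha)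
        _ = _ := by rw [Finset.sum_const, Finset.card_range, smul_eq_mul]
    calc _ ≤ p ^ (2 * s - 1) * (p * (r.factorial * p ^ (r * (r - 1) / 2) * X ^ r * J s r (X / p + 1))) :=
          Nat.mul_le_mul_left _ h3
      _ = p ^ (2 * s - 1 + 1) * (r.factorial * p ^ (r * (r - 1) / 2) * X ^ r * J s r (X / p + 1)) := by
          rw [pow_succ]; ring
      _ = _ := by rw [Nat.sub_add_cancel (by omega)]

theorem dbl_of (h1 : S_DA) (h2 : S_DB) : S_DBL := by
  intro s r M α hs hr hM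
  have a1 := h1 s r M α hs hr hM
  have a2 := h2 s r M α hs hr hM
  have hM0 : (0:ℝ) < M := by exact_mod_cast hM
  calc ‖TT r M α‖ ^ (4 * s ^ 2) = (‖TT r M α‖ ^ (2 * s)) ^ (2 * s) := by
        rw [← pow_mul]; congr 1; ring
    _ ≤ ((M : ℝ) ^ (2 * s - 1) * ∑ v ∈ Box s r M, (nv s r M v : ℝ) * ‖SS r M α v‖) ^ (2 * s) :=
        pow_le_pow_left₀ (by positivity) a1 _
    _ = (M : ℝ) ^ ((2 * s - 1) * (2 * s)) *
          (∑ v ∈ Box s r M, (nv s r M v : ℝ) * ‖SS r M α v‖) ^ (2 * s) := by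
        rw [mul_pow, ← pow_mul]
    _ ≤ (M : ℝ) ^ ((2 * s - 1) * (2 * s)) * ((M : ℝ) ^ (2 * s * (2 * s - 2) + 2 * s) * (J s r M : ℝ) ^ 2 *
          ∏ j ∈ Finset.Icc 1 r, WJ s M j (α j)) := mul_le_mul_of_nonneg_left a2 (by positivity)
    _ = _ := by
        rw [← mul_assoc, ← mul_assoc, ← pow_add]
        congr 3
        obtain ⟨k, rfl⟩ : ∃ k, s = k + 1 := ⟨s - 1, by omega⟩
        have e1 : 2 * (k + 1) - 1 = 2 * k + 1 := by omega
        have e2 : 2 * (k + 1) - 2 = 2 * k := by omega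
        rw [e1, e2]
        have e3 : 8 * (k + 1) ^ 2 - 4 * (k + 1) = 8 * k ^ 2 + 12 * k + 4 := by
          have : 8 * (k + 1) ^ 2 = 8 * k ^ 2 + 12 * k + 4 + 4 * (k + 1) := by ring
          omega
        rw [e3]; ring

end Pool.Agent.Y957.VK
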